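import Pool.Agent.Run7.h994.MC.RSf

/-!
# One vector of gaps of consecutive primes near a real arithmetic progression of square roots

For every `k` and `ε > 0` there is `D` such that for every real `λ > 0` there is `c > 0` with the following property for all large
`M`, all `α ∈ [0, 1]` and all `κ` with `M^(-1/2 + ε) ≤ κ ≤ 1`: there are integers `1 ≤ g_0, ..., g_(k-1) ≤ D` such that for at least `c M`
of the `m ≤ M` there are at least `c κ M / (log M)^D` indices `i` with `λ (m + α) < √p_i`, `√p_(i+k) ≤ λ (m + α) + κ` and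
`p_(i+j+1) - p_i = g_j` for all `j < k`; so the differences `√p_(i+j+1) - √p_i` of these square roots of consecutive primes are
`g_j / (2 √p_i) + O(p_i^(-3/2))` with the same `g_j` for a positive proportion of the points of the real arithmetic progression.

Method. The Maynard-Tao theorem (in the form with the right order of magnitude, project HR of the starting tree) in an
arbitrary set `T` of relative density `κ → 0` in which the integers and the primes are equidistributed in residue classes up to a
small power level; here `T` is the set of the integers `v` for which the fractional part of `√v / λ - α` is less than `κ`. The clusters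
found consist of integers free of small prime factors; the upper bound sieve shows that no `m` has too many of them.
-/

set_option autoImplicit false

namespace Pool.Agent.Results.MP_3998cf_nt.GapVectorsNearProgressions

open Finset

/-- the `i`-th prime (`i = 0, 1, ...`) -/
noncomputable def p (i : ℕ) : ℕ := Nat.nth Nat.Prime i

open Classical in
/-- the indices `i` with `y < √p_i`, `√p_(i+k) ≤ y + κ` and `p_(i+j+1) = p_i + g_j` for all `j < k`. (The bound for `i` is no
restriction: `i < p_i ≤ (y + κ)^2`.) -/
noncomputable def places {k : ℕ} (g : Fin k → ℕ) (κ y : ℝ) : Finset ℕ :=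
  (range (⌊(y + κ) ^ 2⌋₊ + 1)).filter (fun i : ℕ => y < √(p i : ℝ) ∧ √(p (i + k) : ℝ) ≤ y + κ ∧
    ∀ j : Fin k, p (i + (j + 1)) = p i + g j)

theorem result (k : ℕ) (ε : ℝ) (hε : 0 < ε) : ∃ D : ℕ, ∀ l : ℝ, 0 < l → ∃ c : ℝ, 0 < c ∧ ∃ M₀ : ℕ, ∀ M : ℕ, M₀ ≤ M →
    ∀ α : ℝ, 0 ≤ α → α ≤ 1 → ∀ κ : ℝ, (M : ℝ) ^ (-1 / 2 + ε) ≤ κ → κ ≤ 1 →
      ∃ g : Fin k → ℕ, (∀ j, 1 ≤ g j ∧ g j ≤ D) ∧
        c * M ≤ (#((Icc 1 M).filter (fun m : ℕ => c * (κ * M / Real.log M ^ D) ≤ (#(places g κ (l * (m + α))) : ℝ))) : ℝ) := by
  obtain ⟨D, hD, H⟩ := Run7.h994.MC.sq_vectors k ε hε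
  exact ⟨D, H⟩

end Pool.Agent.Results.MP_3998cf_nt.GapVectorsNearProgressions
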