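import Pool.Agent.Run7.h946.SQ.Win

/-!
# Differences of square roots of consecutive primes, along lacunary sequences

`1, α_1, …, α_r` are linearly independent over `ℚ` and `a_j ≥ exp (j^η)`, `η > 0` (for example `a_j = 10^j` or `a_j = j!`).
For almost every real `β > 0`: for all `V` and all `κ = δ = 1 / (m + 1)`, for all large `j`, all the real numbers `x` within
`(log a_j)^V` of `β a_j` and all the boxes modulo one of volume at least `δ`, the consecutive primes `p ≤ x < q` with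
`α p`, `α q` in the box exist and satisfy `q - p ≤ x^(1/3 + κ)` and `√q - √p ≤ x^(-1/6 + κ)`. With `r = 0` this is
the convergence `√p_(n+1) - √p_n → 0`, with a rate, for the consecutive primes around the numbers `x` near the
`β a_j`.
-/

set_option autoImplicit false
set_option maxHeartbeats 4000000

namespace Pool.Agent.Results.MP_3998cf_nt.LacunarySequences

open Finset Filter Topology MeasureTheory
open Run7.h946.SQ (Bohr Independent Consecutive SmallGaps)

/-- **Theorem.** -/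
theorem result {r : ℕ} (α : Fin r → ℝ) (hα : Independent α) (η : ℝ) (hη : 0 < η) (a : ℕ → ℝ)
    (ha : ∀ j : ℕ, Real.exp ((j : ℝ) ^ η) ≤ a j) :
    ∀ᵐ β : ℝ, 0 < β → ∀ V m : ℕ, ∀ᶠ j in atTop, ∀ x : ℝ, |x - β * a j| ≤ Real.log (a j) ^ V →
      SmallGaps α (1 / ((m : ℝ) + 1)) (1 / ((m : ℝ) + 1)) x := by
  have h0 : ∀ᵐ β : ℝ, ∀ V m : ℕ, 0 < β → ∀ᶠ j in atTop, ∀ x : ℝ, |x - β * a j| ≤ Real.log (a j) ^ V →
      SmallGaps α (1 / ((m : ℝ) + 1)) (1 / ((m : ℝ) + 1)) x := by
    rw [ae_all_iff]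
    intro V
    rw [ae_all_iff]
    intro m
    have hκ : 0 < 1 / ((m : ℝ) + 1) := by positivity
    have hF := Run7.h946.SQ.isThin_of_thin (Run7.h946.SQ.thin_close hα (κ := 1 / ((m : ℝ) + 1) / 2)
      (δ := 1 / ((m : ℝ) + 1)) (by positivity) hκ)
    obtain ⟨x₀, h1⟩ := Run7.h946.SQ.two_le_pow (1 / ((m : ℝ) + 1)) hκ
    filter_upwards [Run7.h946.SQ.lacunary hF hη ha (V + 1)] with β hβ hβ0
    obtain ⟨h2, h3, h4⟩ := Run7.h946.SQ.growth hη ha V
    have h5 : Tendsto (fun j => β * a j / 2) atTop atTop := by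
      have : Tendsto (fun j => (β / 2) * a j) atTop atTop := h2.const_mul_atTop (by positivity)
      refine this.congr (fun j => by ring)
    filter_upwards [hβ, h3, h5.eventually_ge_atTop ((x₀ : ℝ) + 1), h4 (β / 2) (by positivity)] with j hj b1 b2 b3 x hx
    rw [abs_le] at hx
    have b4 : (x₀ : ℝ) + 1 ≤ x := by linarith
    have b5 : (0 : ℝ) ≤ x₀ := Nat.cast_nonneg _
    have b6 : (⌊x⌋₊ : ℝ) ≤ x := Nat.floor_le (by linarith)
    have b7 : x < ⌊x⌋₊ + 1 := Nat.lt_floor_add_one x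
    have b8 : x₀ ≤ ⌊x⌋₊ := Nat.le_floor (by linarith)
    have b10 : Real.log (a j) ^ V + 1 ≤ Real.log (a j) ^ (V + 1) := by
      have c1 : 1 ≤ Real.log (a j) ^ V := one_le_pow₀ (by linarith)
      rw [pow_succ]
      nlinarith
    obtain ⟨g1, g2⟩ := h1 _ b8
    have h6 := hj _ g1 (by
      rw [abs_le]
      constructor <;> linarith)
    simp only [not_not] at h6
    exact h6.smallGaps hκ g1 g2 x rfl
  filter_upwards [h0] with β hβ hβ0 V m
  exact hβ V m hβ0

end Pool.Agent.Results.MP_3998cf_nt.LacunarySequences
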