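import Mathlib
import Pool.Agent.Run7.h337.MK.TreeTU

/-!
# Square roots of primes in chains of unit intervals: small differences, and trees of primes across many squares
-/

set_option autoImplicit false

namespace Pool.Agent.Results.MP_3998cf_nt.PrimeTreesAcrossManySquares

open Finset Filter
open Run7.h337.MK (PrimeLaw AllTreesT)
open Pool.Agent.N384.MQ (ev_log_pow ev_log_ge)

/-- All consecutive primes p < p' with n <= sqrt p and sqrt p' <= n + H satisfy sqrt p' - sqrt p < delta. -/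
def SmallDifferences (n H : ℕ) (δ : ℝ) : Prop :=
  ∀ p p' : ℕ, p.Prime → p'.Prime → (n : ℝ) ≤ √(p : ℝ) → √(p' : ℝ) ≤ n + H → p < p' →
    (∀ x, p < x → x < p' → ¬ x.Prime) → √(p' : ℝ) - √(p : ℝ) < δ

theorem result (r T U : ℕ) (ε : ℝ) (hε : 0 < ε) (hε1 : ε ≤ 1 / 2) :
    ∃ V C D X₀ : ℕ, ∀ X : ℕ, X₀ ≤ X →
    ∃ E : Finset ℕ, (E.card : ℝ) ≤ X / Real.log X ^ U ∧ ∀ n H : ℕ, 1 ≤ n → 1 ≤ H → (H : ℝ) ≤ Real.log X ^ T →
    n + H ≤ X → n ∉ E → SmallDifferences n H (1 / Real.log X ^ T) ∧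
    AllTreesT 1 r T V C D X ε (n ^ 2) ((n + H) ^ 2) := by
  classical
  obtain ⟨V, C, D, X₀, h⟩ := Run7.h337.MK.treeT_unc 1 (le_refl 1) r (T + (U + T + 1) + 2) (U + T + 1) ε hε (by linarith)
  refine ⟨V, C, D, max X₀ 3, fun X hX => ?_⟩
  have hX0' : X₀ ≤ X := le_trans (le_max_left _ _) hX
  have hX3 : 3 ≤ X := le_trans (le_max_right _ _) hX
  have hX0 : (0 : ℝ) < X := by
    have : (3 : ℝ) ≤ X := by exact_mod_cast hX3
    linarith
  obtain ⟨hL4, E, hE, h2⟩ := h X hX0'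
  obtain ⟨L, hL⟩ : ∃ L, L = Real.log X := ⟨_, rfl⟩
  have hL4' : 4 ≤ L := by rw [hL]; exact hL4
  rw [← hL] at hE h2
  have hL1 : 1 ≤ L := by linarith
  have hL0 : 0 < L := by linarith
  have hmono : ∀ e f : ℕ, e ≤ f → L ^ e ≤ L ^ f := fun e f hef => pow_le_pow_right₀ hL1 hef
  obtain ⟨K, hK⟩ : ∃ K, K = ⌊L ^ T⌋₊ := ⟨_, rfl⟩
  have hK1 : (K : ℝ) ≤ L ^ T := by
    rw [hK]
    exact Nat.floor_le (by positivity)
  refine ⟨E.biUnion fun e => Icc (e - K) e, ?_, fun n H hn1 hH1 hHT hnH hnE => ?_⟩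
  · have e1 : ((E.biUnion fun e => Icc (e - K) e).card : ℝ) ≤ E.card * (K + 1) := by
      have e2 : (E.biUnion fun e => Icc (e - K) e).card ≤ E.card * (K + 1) := by
        apply card_biUnion_le_card_mul
        intro e _
        rw [Nat.card_Icc]
        omega
      exact_mod_cast e2
    have e3 : (K : ℝ) + 1 ≤ L ^ (T + 1) := by
      rw [pow_succ]
      have : (1 : ℝ) ≤ L ^ T := one_le_pow₀ hL1
      nlinarith
    rw [← hL]
    calc ((E.biUnion fun e => Icc (e - K) e).card : ℝ) ≤ E.card * (K + 1) := e1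
      _ ≤ (X / L ^ (U + T + 1)) * L ^ (T + 1) := mul_le_mul hE e3 (by positivity) (by positivity)
      _ = X / L ^ U := by
          rw [show U + T + 1 = U + (T + 1) by ring, pow_add]
          field_simp
  rw [← hL] at hHT
  have hHK : H ≤ K := by
    rw [hK]
    exact Nat.le_floor hHT
  obtain ⟨g1, g2, g3⟩ := h2 n (n + H) hn1 (by omega) (by omega)
    (by
      push_cast
      have := hmono T (T + (U + T + 1) + 2) (by omega)
      linarith)
    (by
      intro m h5 h6 h7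
      apply hnE
      rw [mem_biUnion]
      refine ⟨m, h7, ?_⟩
      rw [mem_Icc]
      omega)
  refine ⟨?_, Run7.h337.MK.allTreesT_mono (by omega) (by rw [← hL]; exact hL1) (le_refl _) (le_refl _) g3⟩
  intro p p' hp hp' hnp hnp' hpp hcons
  rw [← hL]
  by_contra hcon
  push Not at hcon
  have hp0 : (0 : ℝ) ≤ p := Nat.cast_nonneg _
  have hp0' : (0 : ℝ) ≤ p' := Nat.cast_nonneg _
  have s1 := Real.sq_sqrt hp0
  have s2 := Real.sq_sqrt hp0'
  have hn0 : (1 : ℝ) ≤ n := by exact_mod_cast hn1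
  have hLT : 0 < 1 / L ^ T := by positivity
  have hlen : (p : ℝ) + 2 * n / L ^ T ≤ p' := by
    have e1 : (p' : ℝ) - p = (√(p' : ℝ) - √(p : ℝ)) * (√(p' : ℝ) + √(p : ℝ)) := by
      rw [← s1, ← s2]
      rw [Real.sqrt_sq (Real.sqrt_nonneg _), Real.sqrt_sq (Real.sqrt_nonneg _)]
      ring
    have e2 : 1 / L ^ T * (2 * n) ≤ (√(p' : ℝ) - √(p : ℝ)) * (√(p' : ℝ) + √(p : ℝ)) := by
      apply mul_le_mul hcon _ (by linarith) (by linarith)
      linarith
    have e3 : 2 * (n : ℝ) / L ^ T = 1 / L ^ T * (2 * n) := by ring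
    rw [e3]
    linarith
  have hu : n ^ (1 + 1) ≤ p := by
    have e1 : (n : ℝ) ^ 2 ≤ p := by
      rw [← s1]
      exact pow_le_pow_left₀ (by linarith) hnp 2
    exact_mod_cast e1
  have hv : p' ≤ (n + H) ^ (1 + 1) := by
    have e1 : (p' : ℝ) ≤ ((n : ℝ) + H) ^ 2 := by
      rw [← s2]
      exact pow_le_pow_left₀ (Real.sqrt_nonneg _) hnp' 2
    exact_mod_cast e1
  have hXn : (X : ℝ) ^ 1 / L ^ (T + (U + T + 1) + 2) ≤ 2 * n / L ^ T := by
    rw [pow_one, div_le_div_iff₀ (by positivity) (by positivity)]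
    calc (X : ℝ) * L ^ T ≤ (n * L ^ (U + T + 1 + 1)) * L ^ T := mul_le_mul_of_nonneg_right g1 (by positivity)
      _ = n * L ^ (T + (U + T + 1) + 1) := by ring
      _ ≤ n * L ^ (T + (U + T + 1) + 2) := mul_le_mul_of_nonneg_left (hmono _ _ (by omega)) (by linarith)
      _ ≤ 2 * n * L ^ (T + (U + T + 1) + 2) := by
          apply mul_le_mul_of_nonneg_right _ (by positivity)
          linarith
  have h9 := g2 p p' hu hv (by linarith)
  have h10 : (Ioo p p').filter Nat.Prime = ∅ := by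
    rw [filter_eq_empty_iff]
    intro x hx
    rw [mem_Ioo] at hx
    exact hcons x hx.1 hx.2
  rw [PrimeLaw, h10, card_empty, ← hL] at h9
  have h11 : 0 < ((p' : ℝ) - p) / (((1 : ℕ) + 1) * L) := by
    have : 0 < 2 * (n : ℝ) / L ^ T := by positivity
    apply div_pos (by linarith) (by positivity)
  rw [Nat.cast_zero, zero_sub, abs_neg, abs_of_pos h11] at h9
  nlinarith

end Pool.Agent.Results.MP_3998cf_nt.PrimeTreesAcrossManySquares
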