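import Mathlib
import Pool.Agent.Run7.h794.MK.All
import Pool.Agent.Run7.h591.EG.Fin4

set_option autoImplicit false
set_option maxHeartbeats 4000000

universe u

namespace Pool.Agent.Results.MP_3998cf_nt.ReturnGaps

open Finset MeasureTheory
open Pool.Agent.Run7.h591.EG

theorem result {k : ℕ} (X : Fin k → Type u) [∀ i, MeasurableSpace (X i)] (μ : ∀ i, Measure (X i))
    [∀ i, IsProbabilityMeasure (μ i)] (T : ∀ i, X i → X i) (hT : ∀ i, MeasurePreserving (T i) (μ i) (μ i))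
    (A : ∀ i, Set (X i)) (hA : ∀ i, MeasurableSet (A i)) (ε : ℝ) (hε : 0 < ε) :
    ∀ C : ℕ, ∃ Y₀ : ℕ, ∀ Y : ℕ, Y₀ ≤ Y → ∃ Bad : Finset ℕ, Bad ⊆ Ioc Y (2 * Y) ∧
      (Bad.card : ℝ) ≤ Y / Real.log Y ^ C ∧ ∀ m ∈ Ioc Y (2 * Y), m ∉ Bad →
        ∃ p : ℕ, p.Prime ∧ m < p ∧ √(p : ℝ) - √(m : ℝ) < 1 / Real.log Y ^ C ∧
          (∏ i, (μ i).real (A i)) ^ 2 - ε < ∏ i, (μ i).real (A i ∩ (T i)^[p - 1] ⁻¹' (A i)) := by
  obtain ⟨κ, hκ, h1⟩ := khin_pi Pool.Agent.Run7.h794.MK.all_all μ T hT A hA ε hε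
  exact gap _ (ex_of_count κ hκ _ h1)

end Pool.Agent.Results.MP_3998cf_nt.ReturnGaps
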